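import Pool.Agent.helper84.VN.Spec4n

/-!
# MP_07c750_an, project VN, row RN4: rigidity of pseudo-orbits
-/

set_option autoImplicit false

open scoped MatrixGroups ContDiff Topology UpperHalfPlane ComplexConjugate ENNReal
open UpperHalfPlane MeasureTheory Filter Set

namespace Pool.Agent.VN

open Pool.Agent.RS Pool.Agent.VQ
open Pool.Agent.VQE (nm)

noncomputable section

theorem RN4_nm1 : nm (1 : SL(2, ℝ)) = 0 := by simp [nm]

theorem RN4_nm0 (x : SL(2, ℝ)) : 0 ≤ nm x := (abs_nonneg _).trans ((le_max_left _ _).trans (le_max_left _ _))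

theorem RN4_nm00 (x : SL(2, ℝ)) : |x.1 0 0 - 1| ≤ nm x ∧ |x.1 1 1 - 1| ≤ nm x :=
  ⟨(le_max_left _ _).trans (le_max_left _ _), (le_max_right _ _).trans (le_max_right _ _)⟩

theorem RN4_J1 (U : ℍ → ℝ) (E : ℝ) (g : SL(2, ℝ)) : JX U E g 1 = 0 := by simp [JX, Jc]

theorem RN4_N0 (U : ℍ → ℝ) (E : ℝ) (g x : SL(2, ℝ)) : 0 ≤ NX U E g x := add_nonneg (abs_nonneg _) (abs_nonneg _)

theorem RN4_div {K x : ℝ} (hK : 0 < K) (h : K * x ≤ 1) : x ≤ 1 / K := by
  rw [le_div_iff₀ hK]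
  linarith

theorem RN4_signs {k C K1 K2 K : ℝ} {D : Dyn} (hK1 : 1 ≤ K1) (hK2 : 1 ≤ K2)
    (hG : ∀ (E E' t ε : ℝ) (g g' : SL(2, ℝ)), |E| ≤ k → |E'| ≤ k → |E' - E| ≤ ε →
      nm (Xt D E E' g g' t) ≤ (nm (g⁻¹ * g') + ε) * Real.exp (K1 * |t|))
    (hCn : ∀ (E E1 : ℝ) (g x y y' : SL(2, ℝ)), |E| ≤ k → |E1| ≤ k → nm x ≤ 1 / K2 → nm y ≤ 1 / K2 → nm y' ≤ 1 / K2 →
      |JX D.U E1 (g * y) (y⁻¹ * x * y') - JX D.U E g x| ≤ K2 * (nm y + nm y' + |E1 - E|) ∧
      |WX D.U E1 (g * y) (y⁻¹ * x * y') - WX D.U E g x| ≤ K2 * (nm y + nm y' + |E1 - E|) ∧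
      nm (y⁻¹ * x * y') ≤ K2 * (nm x + nm y + nm y'))
    (_hFC : FNE k C D) (hK : 4 * K2 * (Real.exp (2 * K1) + 1) ≤ K) {t ε : ℝ} {n : ℕ} {w w' : ℕ → SL(2, ℝ) × ℝ}
    (ht1 : 1 ≤ t) (ht2 : t ≤ 2) (hε : 0 < ε) (hε1 : ε ≤ 1 / K) (hw : PO D (4 * k) t ε n w) (hw' : PO D (4 * k) t ε n w')
    (hen : ∀ i ≤ n, |(w' i).2 - (w i).2| ≤ ε)
    (hcl : ∀ i ≤ n, nm ((w i).1⁻¹ * (w' i).1) ≤ 1 / K ∨ nm (-((w i).1⁻¹ * (w' i).1)) ≤ 1 / K) (h0 : (w' 0).1 = (w 0).1) :
    ∀ i ≤ n, nm ((w i).1⁻¹ * (w' i).1) ≤ 1 / K := by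
  have he : 0 < Real.exp (2 * K1) := Real.exp_pos _
  have hKpos : 0 < K := lt_of_lt_of_le (by positivity) hK
  have hδ : K * (1 / K) = 1 := by field_simp
  have hδ0 : 0 < 1 / K := by positivity
  have hc : 4 * K2 * (Real.exp (2 * K1) + 1) * (1 / K) ≤ 1 := by
    have := mul_le_mul_of_nonneg_right hK hδ0.le
    linarith
  have hK2p : 0 < K2 := by linarith
  have hen1 : ∀ i ≤ n, |(w i).2| ≤ k := fun i hi => by
    have := hw.en i hi
    linarith
  have hen2 : ∀ i ≤ n, |(w' i).2| ≤ k := fun i hi => by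
    have := hw'.en i hi
    linarith
  intro i
  induction i with
  | zero =>
    intro _
    rw [h0, inv_mul_cancel, RN4_nm1]
    exact hδ0.le
  | succ i ih =>
    intro hi
    have h1 := ih (by omega)
    have hi' : i < n := by omega
    have hX := hG (w i).2 (w' i).2 t ε (w i).1 (w' i).1 (hen1 i hi'.le) (hen2 i hi'.le) (hen i hi'.le)
    have hexp : Real.exp (K1 * |t|) ≤ Real.exp (2 * K1) := by
      apply Real.exp_le_exp.2
      rw [abs_of_nonneg (by linarith : (0 : ℝ) ≤ t)]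
      nlinarith
    have hX2 : nm (Xt D (w i).2 (w' i).2 (w i).1 (w' i).1 t) ≤ 2 * (1 / K) * Real.exp (2 * K1) := by
      refine hX.trans ?_
      refine mul_le_mul (by linarith) hexp (Real.exp_pos _).le (by positivity)
    have hX3 : nm (Xt D (w i).2 (w' i).2 (w i).1 (w' i).1 t) ≤ 1 / K2 := by
      refine RN4_div hK2p ?_
      have := mul_le_mul_of_nonneg_left hX2 hK2p.le
      have e1 : 0 < K2 * (1 / K) := by positivity
      nlinarith
    have hεK : ε ≤ 1 / K2 := by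
      refine RN4_div hK2p ?_
      have := mul_le_mul_of_nonneg_left hε1 hK2p.le
      have e1 : 0 < K2 * (1 / K) * Real.exp (2 * K1) := by positivity
      nlinarith
    obtain ⟨y1, -⟩ := hw.st i hi'
    obtain ⟨y2, -⟩ := hw'.st i hi'
    have h3 := (hCn (w i).2 (w (i + 1)).2 (w i).1 (Xt D (w i).2 (w' i).2 (w i).1 (w' i).1 t) ((D.fl (w i).2 t (w i).1)⁻¹ * (w (i + 1)).1)
      ((D.fl (w' i).2 t (w' i).1)⁻¹ * (w' (i + 1)).1) (hen1 i hi'.le) (hen1 (i + 1) hi) hX3 (y1.trans hεK) (y2.trans hεK)).2.2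
    have e : ((D.fl (w i).2 t (w i).1)⁻¹ * (w (i + 1)).1)⁻¹ * Xt D (w i).2 (w' i).2 (w i).1 (w' i).1 t *
        ((D.fl (w' i).2 t (w' i).1)⁻¹ * (w' (i + 1)).1) = (w (i + 1)).1⁻¹ * (w' (i + 1)).1 := by
      unfold Xt
      group
    rw [e] at h3
    have h4 : nm ((w (i + 1)).1⁻¹ * (w' (i + 1)).1) ≤ 1 / 2 := by
      refine h3.trans ?_
      have e2 : nm (Xt D (w i).2 (w' i).2 (w i).1 (w' i).1 t) + nm ((D.fl (w i).2 t (w i).1)⁻¹ * (w (i + 1)).1) +
        nm ((D.fl (w' i).2 t (w' i).1)⁻¹ * (w' (i + 1)).1) ≤ 2 * (1 / K) * Real.exp (2 * K1) + 1 / K + 1 / K := by linarith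
      have e3 := mul_le_mul_of_nonneg_left e2 hK2p.le
      nlinarith
    rcases hcl (i + 1) hi with h5 | h5
    · exact h5
    · exfalso
      have h6 := (RN4_nm00 _).1.trans h4
      have h7 := (RN4_nm00 _).1.trans h5
      have h8 : (-((w (i + 1)).1⁻¹ * (w' (i + 1)).1)).1 0 0 = -((w (i + 1)).1⁻¹ * (w' (i + 1)).1).1 0 0 := by
        rfl
      rw [h8] at h7
      have h9 : 1 / K ≤ 1 / 8 := by
        have e1 : 0 < K2 * (1 / K) * Real.exp (2 * K1) := by positivity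
        have e2 : 1 ≤ Real.exp (2 * K1) := Real.one_le_exp (by linarith)
        have e3 : (1 / K) ≤ K2 * (1 / K) := le_mul_of_one_le_left hδ0.le hK2
        have e4 : K2 * (1 / K) ≤ K2 * (1 / K) * Real.exp (2 * K1) := le_mul_of_one_le_right (by positivity) e2
        nlinarith
      rw [abs_le] at h6 h7
      linarith [h6.1, h7.1]

theorem RN4_proof (hGN4 : GN4_stmt) (hCN4 : CN4_stmt) (hUR4 : UR4_stmt) (hUS4 : US4_stmt) (hQS4 : QS4_stmt) : RN4_stmt := by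
  intro k C
  obtain ⟨K1, hK1, hG⟩ := hGN4 k C
  obtain ⟨K2, hK2, hCc⟩ := hCN4 k C
  obtain ⟨K3, hK3, hU⟩ := hUR4 k C
  obtain ⟨K4, hK4, hS⟩ := hUS4 k C
  obtain ⟨μ, K5, hμ, hK5, hQ⟩ := hQS4 K4 hK4
  have he : 0 < Real.exp (2 * K1) := Real.exp_pos _
  have p1 : 0 < K1 := by linarith
  have p2 : 0 < K2 := by linarith
  have p3 : 0 < K3 := by linarith
  have p4 : 0 < K4 := by linarith
  have p5 : 0 < K5 := by linarith
  obtain ⟨K, b1, b2, b3, b4, b5, b6, b7, b8, b9⟩ : ∃ K : ℝ, 4 * K2 * (Real.exp (2 * K1) + 1) ≤ K ∧ K3 ≤ K ∧ 2 * K3 * K2 ≤ K ∧ 2 * K3 * K4 ≤ K ∧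
      K2 * (1 + 2 * K3) * K2 ≤ K ∧ K2 * (1 + 2 * K3) * K4 ≤ K ∧ K4 * (K2 * (K2 * (1 + 2 * K3)) + 1) ≤ K ∧
      K3 * (2 * K3 + K4 * (K2 * (K2 * (1 + 2 * K3)) + 1)) ≤ K ∧ K2 * (K2 * K5 + K4 * (K5 + 1)) ≤ K := by
    have c1 : 0 < 4 * K2 * (Real.exp (2 * K1) + 1) := by positivity
    have c3 : 0 < 2 * K3 * K2 := by positivity
    have c4 : 0 < 2 * K3 * K4 := by positivity
    have c5 : 0 < K2 * (1 + 2 * K3) * K2 := by positivity
    have c6 : 0 < K2 * (1 + 2 * K3) * K4 := by positivity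
    have c7 : 0 < K4 * (K2 * (K2 * (1 + 2 * K3)) + 1) := by positivity
    have c8 : 0 < K3 * (2 * K3 + K4 * (K2 * (K2 * (1 + 2 * K3)) + 1)) := by positivity
    have c9 : 0 < K2 * (K2 * K5 + K4 * (K5 + 1)) := by positivity
    refine ⟨4 * K2 * (Real.exp (2 * K1) + 1) + K3 + 2 * K3 * K2 + 2 * K3 * K4 + K2 * (1 + 2 * K3) * K2 + K2 * (1 + 2 * K3) * K4 +
      K4 * (K2 * (K2 * (1 + 2 * K3)) + 1) + K3 * (2 * K3 + K4 * (K2 * (K2 * (1 + 2 * K3)) + 1)) + K2 * (K2 * K5 + K4 * (K5 + 1)),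
      by linarith, by linarith, by linarith, by linarith, by linarith, by linarith, by linarith, by linarith, by linarith⟩
  have hK1' : 1 ≤ K := hK3.trans b2
  refine ⟨K, hK1', ?_⟩
  intro D hD t ε n w w' ht1 ht2 hε hKε hw hw' hen hcl h0 hn
  have hKpos : 0 < K := by linarith
  obtain ⟨q1, q3, q4⟩ := hCc D hD
  have hn0 : (0 : ℝ) ≤ n := Nat.cast_nonneg n
  have hεδ : ε ≤ 1 / K := by
    refine RN4_div hKpos ?_
    have : K * ε ≤ K * ((n + 1) * ε) := mul_le_mul_of_nonneg_left (by nlinarith) hKpos.le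
    linarith
  have hsg := RN4_signs hK1 hK2 (hG D hD) q3 hD b1 ht1 ht2 hε hεδ hw hw' hen hcl h0
  have hδ0 : 0 < 1 / K := by positivity
  have hδ : K * (1 / K) = 1 := by field_simp
  -- `c ≤ K` gives `c / K ≤ 1`
  have hc : ∀ c : ℝ, c ≤ K → c * (1 / K) ≤ 1 := fun c hcK => by
    have := mul_le_mul_of_nonneg_right hcK hδ0.le
    linarith
  have a2 := hc _ b2
  have a3 := hc _ b3
  have a4 := hc _ b4
  have a5 := hc _ b5
  have a6 := hc _ b6
  have a7 := hc _ b7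
  have a8 := hc _ b8
  have hen1 : ∀ i ≤ n, |(w i).2| ≤ k := fun i hi => by
    have := hw.en i hi
    linarith
  have hen2 : ∀ i ≤ n, |(w' i).2| ≤ k := fun i hi => by
    have := hw'.en i hi
    linarith
  -- facts about centred differences
  have fact : ∀ i ≤ n, ∀ s : ℝ, (zz D w w' s i).1 0 0 = (zz D w w' s i).1 1 1 → |s| ≤ 1 / K3 →
      |s| ≤ 2 * K3 * nm ((w i).1⁻¹ * (w' i).1) ∧ |s| ≤ 1 / K2 ∧ |s| ≤ 1 / K4 ∧ nm (zz D w w' s i) ≤ 1 / K2 ∧ nm (zz D w w' s i) ≤ 1 / K4 ∧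
      NX D.U (w i).2 (w i).1 (zz D w w' s i) ≤ K2 * (K2 * (1 + 2 * K3)) * (1 / K) ∧
      nm (zz D w w' s i) ≤ K2 * NX D.U (w i).2 (w i).1 (zz D w w' s i) := by
    intro i hi s hz hs
    have g1 := hsg i hi
    have g2 : nm ((w i).1⁻¹ * (w' i).1) ≤ 1 / K3 := g1.trans (RN4_div p3 a2)
    have g3 : |s| ≤ K3 * |((w i).1⁻¹ * (w' i).1).1 0 0 - ((w i).1⁻¹ * (w' i).1).1 1 1| := by
      have hmo := (hU D hD (w' i).2 (w i).1 (w' i).1 _ (hen2 i hi) rfl g2).2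
      have hz' : ((w i).1⁻¹ * D.fl (w' i).2 s (w' i).1).1 0 0 = ((w i).1⁻¹ * D.fl (w' i).2 s (w' i).1).1 1 1 := hz
      have hinv : 0 ≤ 1 / K3 := by positivity
      rcases le_total 0 s with h | h
      · have h1 := hmo 0 s (by linarith) h ((le_abs_self s).trans hs)
        rw [hD.zero, hz', sub_self, zero_sub, sub_zero, div_le_iff₀ p3] at h1
        rw [abs_of_nonneg h]
        have h2 := mul_le_mul_of_nonneg_left (neg_le_abs (((w i).1⁻¹ * (w' i).1).1 0 0 - ((w i).1⁻¹ * (w' i).1).1 1 1)) p3.le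
        linarith
      · have h1 := hmo s 0 (by linarith [neg_le_abs s]) h hinv
        rw [hD.zero, hz', sub_self, sub_zero, zero_sub, div_le_iff₀ p3] at h1
        rw [abs_of_nonpos h]
        have h2 := mul_le_mul_of_nonneg_left (le_abs_self (((w i).1⁻¹ * (w' i).1).1 0 0 - ((w i).1⁻¹ * (w' i).1).1 1 1)) p3.le
        linarith
    have g4 : |((w i).1⁻¹ * (w' i).1).1 0 0 - ((w i).1⁻¹ * (w' i).1).1 1 1| ≤ 2 * nm ((w i).1⁻¹ * (w' i).1) := by
      obtain ⟨u1, u2⟩ := RN4_nm00 ((w i).1⁻¹ * (w' i).1)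
      rw [abs_le] at u1 u2 ⊢
      constructor <;> linarith [u1.1, u1.2, u2.1, u2.2]
    have g5 : |s| ≤ 2 * K3 * nm ((w i).1⁻¹ * (w' i).1) := by
      refine g3.trans ?_
      have := mul_le_mul_of_nonneg_left g4 p3.le
      linarith
    have g6 : |s| ≤ 2 * K3 * (1 / K) := g5.trans (mul_le_mul_of_nonneg_left g1 (by positivity))
    have g7 : |s| ≤ 1 / K2 := by
      refine g6.trans (RN4_div p2 ?_)
      linarith
    have g8 : |s| ≤ 1 / K4 := by
      refine g6.trans (RN4_div p4 ?_)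
      linarith
    have g9 : nm ((w i).1⁻¹ * (w' i).1) ≤ 1 / K2 := by
      refine g1.trans (RN4_div p2 ?_)
      have : K2 * (1 / K) ≤ 2 * K3 * K2 * (1 / K) := by
        have : K2 * (1 / K) ≤ K3 * (K2 * (1 / K)) := le_mul_of_one_le_left (by positivity) hK3
        have : 0 < K3 * (K2 * (1 / K)) := by positivity
        linarith
      linarith
    have g10 := (q4 (w i).2 (w' i).2 s (w i).1 ((w i).1⁻¹ * (w' i).1) (zz D w w' s i) (hen1 i hi) (hen2 i hi) g9 g7 (by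
      rw [mul_inv_cancel_left]
      rfl)).2.2
    have g11 : nm (zz D w w' s i) ≤ K2 * (1 + 2 * K3) * (1 / K) := by
      refine g10.trans ?_
      have : nm ((w i).1⁻¹ * (w' i).1) + |s| ≤ (1 + 2 * K3) * (1 / K) := by linarith
      have := mul_le_mul_of_nonneg_left this p2.le
      linarith
    have g12 : nm (zz D w w' s i) ≤ 1 / K2 := by
      refine g11.trans (RN4_div p2 ?_)
      linarith
    have g13 : nm (zz D w w' s i) ≤ 1 / K4 := by
      refine g11.trans (RN4_div p4 ?_)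
      linarith
    obtain ⟨g14, g15⟩ := q1 (w i).2 (w i).1 (zz D w w' s i) (hen1 i hi) g12
    refine ⟨g5, g7, g8, g12, g13, ?_, ?_⟩
    · refine g14.trans ?_
      have := mul_le_mul_of_nonneg_left g11 p2.le
      linarith
    · rw [hz, sub_self, abs_zero, add_zero] at g15
      exact g15
  -- one step
  have step : ∀ i < n, ∀ s : ℝ, (zz D w w' s i).1 0 0 = (zz D w w' s i).1 1 1 → 0 < (zz D w w' s i).1 0 0 → |s| ≤ 1 / K3 →
      ∃ s1 : ℝ, ((zz D w w' s1 (i + 1)).1 0 0 = (zz D w w' s1 (i + 1)).1 1 1 ∧ 0 < (zz D w w' s1 (i + 1)).1 0 0 ∧ |s1| ≤ 1 / K3) ∧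
        |s1 - s| ≤ K4 * (NX D.U (w i).2 (w i).1 (zz D w w' s i) + ε) ∧
        NX D.U (w (i + 1)).2 (w (i + 1)).1 (zz D w w' s1 (i + 1)) ≤ K4 * (NX D.U (w i).2 (w i).1 (zz D w w' s i) + ε) ∧
        JX D.U (w i).2 (w i).1 (zz D w w' s i) * WX D.U (w i).2 (w i).1 (zz D w w' s i) +
          NX D.U (w i).2 (w i).1 (zz D w w' s i) ^ 2 / K4 - K4 * (ε * NX D.U (w i).2 (w i).1 (zz D w w' s i) + ε ^ 2) ≤
          JX D.U (w (i + 1)).2 (w (i + 1)).1 (zz D w w' s1 (i + 1)) * WX D.U (w (i + 1)).2 (w (i + 1)).1 (zz D w w' s1 (i + 1)) := by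
    intro i hi s hz hz0 hs
    obtain ⟨f1, f2, f3, f4, f5, f6, f7⟩ := fact i hi.le s hz hs
    have hNε : K4 * (NX D.U (w i).2 (w i).1 (zz D w w' s i) + ε) ≤ K4 * (K2 * (K2 * (1 + 2 * K3)) + 1) * (1 / K) := by
      have : NX D.U (w i).2 (w i).1 (zz D w w' s i) + ε ≤ (K2 * (K2 * (1 + 2 * K3)) + 1) * (1 / K) := by linarith
      have := mul_le_mul_of_nonneg_left this p4.le
      linarith
    obtain ⟨y1, y2⟩ := hw.st i hi
    obtain ⟨y3, y4⟩ := hw'.st i hi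
    obtain ⟨S1, J1, W1, z, r1, r2, r3, r4, r5, r6, r7, r8, r9, r10, -⟩ := hS D hD t ε s (w i).2 (w' i).2 (w (i + 1)).2 (w' (i + 1)).2
      (JX D.U (w i).2 (w i).1 (zz D w w' s i)) (WX D.U (w i).2 (w i).1 (zz D w w' s i)) (NX D.U (w i).2 (w i).1 (zz D w w' s i))
      (w i).1 (w' i).1 (w (i + 1)).1 (w' (i + 1)).1 (zz D w w' s i) ht1 ht2 hε.le f3 (hen1 i hi.le) (hen2 i hi.le) (hen1 (i + 1) hi)
      (hen2 (i + 1) hi) (hen i hi.le) y2 y4 y1 y3 rfl hz hz0 f5 rfl rfl rfl (by linarith)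
    have hzz : z = zz D w w' S1 (i + 1) := r1
    subst hzz
    subst r5
    subst r6
    refine ⟨S1, ⟨r3, r4, ?_⟩, r2, r8, r10⟩
    have e1 : |S1| ≤ |s| + K4 * (NX D.U (w i).2 (w i).1 (zz D w w' s i) + ε) := by
      have := abs_sub_abs_le_abs_sub S1 s
      linarith
    have e2 : |s| ≤ 2 * K3 * (1 / K) := f1.trans (mul_le_mul_of_nonneg_left (hsg i hi.le) (by positivity))
    have e3 : |S1| ≤ (2 * K3 + K4 * (K2 * (K2 * (1 + 2 * K3)) + 1)) * (1 / K) := by linarith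
    refine e3.trans (RN4_div p3 ?_)
    linarith
  -- the shifts
  have key : ∀ m ≤ n, ∃ S : ℕ → ℝ, S 0 = 0 ∧ (∀ j ≤ m, (zz D w w' (S j) j).1 0 0 = (zz D w w' (S j) j).1 1 1 ∧ 0 < (zz D w w' (S j) j).1 0 0 ∧ |S j| ≤ 1 / K3) ∧
      ∀ j < m, |S (j + 1) - S j| ≤ K4 * (NX D.U (w j).2 (w j).1 (zz D w w' (S j) j) + ε) ∧
        NX D.U (w (j + 1)).2 (w (j + 1)).1 (zz D w w' (S (j + 1)) (j + 1)) ≤ K4 * (NX D.U (w j).2 (w j).1 (zz D w w' (S j) j) + ε) ∧
        JX D.U (w j).2 (w j).1 (zz D w w' (S j) j) * WX D.U (w j).2 (w j).1 (zz D w w' (S j) j) +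
          NX D.U (w j).2 (w j).1 (zz D w w' (S j) j) ^ 2 / K4 - K4 * (ε * NX D.U (w j).2 (w j).1 (zz D w w' (S j) j) + ε ^ 2) ≤
          JX D.U (w (j + 1)).2 (w (j + 1)).1 (zz D w w' (S (j + 1)) (j + 1)) * WX D.U (w (j + 1)).2 (w (j + 1)).1 (zz D w w' (S (j + 1)) (j + 1)) := by
    intro m
    induction m with
    | zero =>
      intro _
      refine ⟨fun _ => 0, rfl, ?_, fun j hj => absurd hj (Nat.not_lt_zero j)⟩
      intro j hj
      obtain rfl : j = 0 := by omega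
      have hz : zz D w w' 0 0 = 1 := by
        unfold zz
        rw [hD.zero, h0, inv_mul_cancel]
      show (zz D w w' 0 0).1 0 0 = (zz D w w' 0 0).1 1 1 ∧ 0 < (zz D w w' 0 0).1 0 0 ∧ |(0 : ℝ)| ≤ 1 / K3
      rw [hz, abs_zero]
      refine ⟨by simp, by simp, by positivity⟩
    | succ m ih =>
      intro hm
      obtain ⟨S, hS0, hP, hT⟩ := ih (by omega)
      obtain ⟨c1, c2, c3⟩ := hP m le_rfl
      obtain ⟨s1, hP1, hT1⟩ := step m (by omega) (S m) c1 c2 c3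
      have hne : ∀ j, j ≤ m → Function.update S (m + 1) s1 j = S j := by
        intro j hj
        rw [Function.update_of_ne (by omega)]
      have heq : Function.update S (m + 1) s1 (m + 1) = s1 := Function.update_self _ _ _
      refine ⟨Function.update S (m + 1) s1, ?_, ?_, ?_⟩
      · rw [hne 0 (Nat.zero_le _)]
        exact hS0
      · intro j hj
        rcases Nat.lt_or_ge m j with h | h
        · obtain rfl : j = m + 1 := by omega
          rw [heq]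
          exact hP1
        · rw [hne j h]
          exact hP j h
      · intro j hj
        rcases Nat.lt_or_ge j m with h | h
        · rw [hne j h.le, hne (j + 1) h]
          exact hT j h
        · obtain rfl : j = m := by omega
          rw [hne j le_rfl, heq]
          exact hT1
  obtain ⟨S, hS0, hP, hT⟩ := key n le_rfl
  -- the end
  have hDn : (w n).1⁻¹ * (w' n).1 = 1 := by
    rcases hn with h | h
    · rw [h, inv_mul_cancel]
    · exfalso
      have h1 := (RN4_nm00 _).1.trans (hsg n le_rfl)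
      have h2 : (w n).1⁻¹ * (w' n).1 = -1 := by
        rw [h, mul_neg, inv_mul_cancel]
      rw [h2] at h1
      have h3 : (-1 : SL(2, ℝ)).1 0 0 = -1 := by simp
      rw [h3] at h1
      have h4 : 1 / K ≤ 1 := by
        rw [div_le_one hKpos]
        exact hK1'
      have h5 : |(-1 : ℝ) - 1| = 2 := by norm_num
      rw [h5] at h1
      linarith
  intro i hi
  rcases Nat.eq_zero_or_pos n with hn1 | hn1
  · subst hn1
    obtain rfl : i = 0 := by omega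
    rw [hDn, RN4_nm1]
    positivity
  have hz0 : zz D w w' (S 0) 0 = 1 := by
    unfold zz
    rw [hS0, hD.zero, h0, inv_mul_cancel]
  have hSn : S n = 0 := by
    obtain ⟨c1, -, c3⟩ := hP n le_rfl
    have h1 := (fact n le_rfl (S n) c1 c3).1
    rw [hDn, RN4_nm1, mul_zero] at h1
    exact abs_nonpos_iff.1 h1
  have hzn : zz D w w' (S n) n = 1 := by
    unfold zz
    rw [hSn, hD.zero]
    exact hDn
  obtain ⟨t1, t2⟩ := hQ n ε (fun j => NX D.U (w j).2 (w j).1 (zz D w w' (S j) j))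
    (fun j => JX D.U (w j).2 (w j).1 (zz D w w' (S j) j) * WX D.U (w j).2 (w j).1 (zz D w w' (S j) j)) hn1 hε.le
    (fun j _ => RN4_N0 _ _ _ _) (fun j hj => (hT j hj).2)
    (by
      show 0 ≤ JX D.U (w 0).2 (w 0).1 (zz D w w' (S 0) 0) * WX D.U (w 0).2 (w 0).1 (zz D w w' (S 0) 0)
      rw [hz0, RN4_J1, zero_mul])
    (by
      show JX D.U (w n).2 (w n).1 (zz D w w' (S n) n) * WX D.U (w n).2 (w n).1 (zz D w w' (S n) n) ≤ _
      rw [hzn, RN4_J1, zero_mul]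
      have : 0 ≤ ∑ j ∈ Finset.range (n + 1), NX D.U (w j).2 (w j).1 (zz D w w' (S j) j) ^ 2 := Finset.sum_nonneg fun j _ => sq_nonneg _
      positivity)
  have t3 : ∀ j ≤ n, |S j| ≤ K4 * (∑ l ∈ Finset.range j, NX D.U (w l).2 (w l).1 (zz D w w' (S l) l) + j * ε) := by
    intro j
    induction j with
    | zero =>
      intro _
      rw [hS0]
      simp
    | succ j ih =>
      intro hj
      have h1 := ih (by omega)
      have h2 := (hT j (by omega)).1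
      have h3 := abs_sub_abs_le_abs_sub (S (j + 1)) (S j)
      rw [Finset.sum_range_succ]
      push_cast
      linarith
  have hne0 : 0 ≤ (n + 1) * ε := by positivity
  have t4 : |S i| ≤ K4 * (K5 + 1) * ((n + 1) * ε) := by
    refine (t3 i hi).trans ?_
    have h1 : ∑ l ∈ Finset.range i, NX D.U (w l).2 (w l).1 (zz D w w' (S l) l) ≤
        ∑ l ∈ Finset.range (n + 1), NX D.U (w l).2 (w l).1 (zz D w w' (S l) l) := by
      refine Finset.sum_le_sum_of_subset_of_nonneg ?_ (fun l _ _ => RN4_N0 _ _ _ _)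
      intro l hl
      rw [Finset.mem_range] at hl ⊢
      omega
    have h2 : (i : ℝ) * ε ≤ (n + 1) * ε := by
      refine mul_le_mul_of_nonneg_right ?_ hε.le
      have : (i : ℝ) ≤ n := by exact_mod_cast hi
      linarith
    have h3 : ∑ l ∈ Finset.range i, NX D.U (w l).2 (w l).1 (zz D w w' (S l) l) + i * ε ≤ (K5 + 1) * ((n + 1) * ε) := by
      have t2' : ∑ l ∈ Finset.range (n + 1), NX D.U (w l).2 (w l).1 (zz D w w' (S l) l) ≤ K5 * ((n + 1) * ε) := t2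
      linarith
    have := mul_le_mul_of_nonneg_left h3 p4.le
    linarith
  obtain ⟨c1, c2, c3⟩ := hP i hi
  obtain ⟨f1, f2, f3, f4, f5, f6, f7⟩ := fact i hi (S i) c1 c3
  have t5 : nm (zz D w w' (S i) i) ≤ K2 * (K5 * ((n + 1) * ε)) := f7.trans (mul_le_mul_of_nonneg_left (t1 i hi) p2.le)
  have t6 := (q4 (w i).2 (w' i).2 (-S i) (w i).1 (zz D w w' (S i) i) ((w i).1⁻¹ * (w' i).1) (hen1 i hi) (hen2 i hi) f4 (by
    rwa [abs_neg]) (by
    have e1 : (w i).1 * zz D w w' (S i) i = D.fl (w' i).2 (S i) (w' i).1 := by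
      unfold zz
      rw [mul_inv_cancel_left]
    rw [e1, ← hD.add _ _ _ _ (hen2 i hi), neg_add_cancel, hD.zero])).2.2
  rw [abs_neg] at t6
  refine t6.trans ?_
  have t7 : K2 * (nm (zz D w w' (S i) i) + |S i|) ≤ K2 * (K2 * K5 + K4 * (K5 + 1)) * ((n + 1) * ε) := by
    have : nm (zz D w w' (S i) i) + |S i| ≤ (K2 * K5 + K4 * (K5 + 1)) * ((n + 1) * ε) := by linarith
    have := mul_le_mul_of_nonneg_left this p2.le
    linarith
  exact t7.trans (mul_le_mul_of_nonneg_right b9 hne0)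

end

end Pool.Agent.VN
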