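import Pool.Agent.helper11.VN.Spec3b
import Pool.Agent.helper15.VQ.SEV

/-!
# Row vn:SEN (MP_07c750_an): the random series (adaptation of helper15/VQ/SEV.lean)
-/

set_option autoImplicit false

open scoped MatrixGroups ContDiff Topology UpperHalfPlane ComplexConjugate ENNReal
open UpperHalfPlane MeasureTheory Filter Set

namespace Pool.Agent.VN

open Pool.Agent.RS Pool.Agent.VQ
open Pool.Agent.RPQ (CEig mean VV IsOp IsMul OProj wrd PJ nst mks MO Net Cl CkB PN upd Eqd)

noncomputable section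

/-! ### The series with bounded coefficients -/

section main

variable {Γ : Subgroup SL(2, ℝ)} {κ : ℝ → ℝ} {C0 : ℝ} {k0 : ℕ} {J : ℕ → ℕ} {p : (k : ℕ) → Fin (J k) → ℍ}
  {χ : (k : ℕ) → Fin (J k) → ℍ → ℝ}

theorem SEN_chi (hF : FamN Γ κ C0 k0 J p χ) (k : ℕ) (j : Fin (J k)) : QU.CD ∞ (χ k j) ∧ QU.Inv Γ (χ k j) := by
  rcases Nat.lt_or_ge k k0 with h | h
  · have h1 := j.2
    have h2 := hF.zero k h
    omega
  · exact ⟨(hF.net k h).smooth j, (hF.net k h).inv j⟩

theorem SEN_lv (hF : FamN Γ κ C0 k0 J p χ) (ζ : ℕ × ℕ → ℝ) (k : ℕ) : QU.CD ∞ (lN χ ζ k) ∧ QU.Inv Γ (lN χ ζ k) := by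
  refine ⟨?_, ?_, ?_⟩
  · have h1 : ContDiffOn ℝ ∞ (fun w : ℂ => aN k * ∑ j : Fin (J k), ζ (k, (j : ℕ)) * QU.onC (χ k j) w)
        {w : ℂ | 0 < w.im} :=
      contDiffOn_const.mul (ContDiffOn.sum fun j _ => contDiffOn_const.mul (SEN_chi hF k j).1)
    exact h1
  · exact continuous_const.mul (continuous_finsetSum _ fun j _ => continuous_const.mul (SEN_chi hF k j).2.1)
  · intro γ z
    show aN k * ∑ j : Fin (J k), ζ (k, (j : ℕ)) * χ k j (γ • z) = aN k * ∑ j : Fin (J k), ζ (k, (j : ℕ)) * χ k j z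
    congr 1
    exact Finset.sum_congr rfl fun j _ => by rw [(SEN_chi hF k j).2.2 γ z]

theorem SEN_W (hSER : Pool.Agent.RPQ.SER_stmt) (hF : FamN Γ κ C0 k0 J p χ) {c : ℕ → ℕ → ℝ}
    (hc : ∀ n, Summable (c n)) (hc0 : ∀ n k, 0 ≤ c n k)
    (hcb : ∀ (n k : ℕ) (ζ : ℕ × ℕ → ℝ), (∀ q, |ζ q| ≤ 1) → CkB n (lN χ ζ k) (c n k))
    (a : ℕ → ℝ) (ha : ∀ k, |a k| ≤ 1) (θ : ℕ → ℕ × ℕ → ℝ) (hθ : ∀ k q, |θ k q| ≤ 1) :
    (∀ z, Summable fun k => a k * lN χ (θ k) k z) ∧ QU.CD ∞ (fun z => ∑' k, a k * lN χ (θ k) k z) ∧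
    QU.Inv Γ (fun z => ∑' k, a k * lN χ (θ k) k z) ∧ (∀ n, Summable fun k => |a k| * c n k) ∧
    ∀ n, CkB n (fun z => ∑' k, a k * lN χ (θ k) k z) (∑' k, |a k| * c n k) := by
  have h1 : ∀ k, QU.CD ∞ (fun z => a k * lN χ (θ k) k z) := fun k => SEV_CDmul (SEN_lv hF (θ k) k).1 (a k)
  have h2 : ∀ k, QU.Inv Γ (fun z => a k * lN χ (θ k) k z) := fun k =>
    ⟨continuous_const.mul (SEN_lv hF (θ k) k).2.1, fun γ z => congrArg (fun t => a k * t) ((SEN_lv hF (θ k) k).2.2 γ z)⟩
  have h3 : ∀ n, Summable fun k => |a k| * c n k := by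
    intro n
    refine Summable.of_nonneg_of_le (fun k => mul_nonneg (abs_nonneg _) (hc0 n k)) (fun k => ?_) (hc n)
    exact mul_le_of_le_one_left (hc0 n k) (ha k)
  have h4 : ∀ n k, CkB n (fun z => a k * lN χ (θ k) k z) (|a k| * c n k) := fun n k =>
    SEV_cmul (SEN_lv hF (θ k) k).1 (a k) (hcb n k (θ k) (hθ k))
  obtain ⟨s1, s2, s3⟩ := hSER Γ (fun k z => a k * lN χ (θ k) k z) (fun k => ⟨h1 k, h2 k⟩)
    (fun n => ⟨fun k => |a k| * c n k, h3 n, h4 n⟩)
  exact ⟨s1, s2, s3, h3, fun n => SEV_ser (v := fun k z => a k * lN χ (θ k) k z) (c := fun n k => |a k| * c n k) h1 h3 h4 n⟩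

end main

theorem SEN_proof (hSER : RPQ.SER_stmt) : SEN_stmt := by
  intro Γ κ C0 k0 J p χ f0 hΓ hF hf0 hI0
  obtain ⟨c, C', hc, hc0, hcb, -⟩ := hF.sum
  have hW := fun a ha θ hθ => SEN_W hSER hF hc hc0 hcb a ha θ hθ
  have hle : ∀ (a : ℕ → ℝ), (∀ k, |a k| ≤ 1) → ∀ n, ∑' k, |a k| * c n k ≤ ∑' k, c n k := by
    intro a ha n
    refine Summable.tsum_le_tsum (fun k => mul_le_of_le_one_left (hc0 n k) (ha k)) ?_ (hc n)
    exact Summable.of_nonneg_of_le (fun k => mul_nonneg (abs_nonneg _) (hc0 n k))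
      (fun k => mul_le_of_le_one_left (hc0 n k) (ha k)) (hc n)
  refine ⟨?_, ?_⟩
  · choose B0 hB0 using fun n => SEV_bdd hΓ hf0 hI0.2 n
    refine ⟨fun n => B0 n + ∑' k, c n k, fun ζ hζ => ?_⟩
    have key : ∀ (a : ℕ → ℝ) (G : ℍ → ℝ), (∀ k, |a k| ≤ 1) → (∀ z, G z = f0 z + ∑' k, a k * lN χ ζ k z) →
        QU.CD ∞ G ∧ QU.Inv Γ G ∧ ∀ n, CkB n G (B0 n + ∑' k, c n k) := by
      intro a G ha hG
      obtain ⟨-, w2, w3, -, w5⟩ := hW a ha (fun _ => ζ) (fun _ => hζ)
      have e : G = fun z => f0 z + ∑' k, a k * lN χ ζ k z := funext hG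
      rw [e]
      refine ⟨SEV_CDadd hf0 w2, ⟨hI0.1.add w3.1, fun γ z => ?_⟩, fun n => ?_⟩
      · show f0 (γ • z) + ∑' k, a k * lN χ ζ k (γ • z) = f0 z + ∑' k, a k * lN χ ζ k z
        rw [hI0.2 γ z]
        congr 1
        exact w3.2 γ z
      · refine SEV_mono (SEV_add hf0 w2 (hB0 n) (w5 n)) ?_
        have := hle a ha n
        linarith
    refine ⟨key (fun _ => 1) _ (fun _ => by simp) (fun z => ?_), fun K => ?_⟩
    · simp only [one_mul]
      rfl
    · refine key (fun k => if k < K then 1 else 0) _ (fun k => ?_) (fun z => ?_)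
      · split_ifs <;> simp
      · unfold bN
        congr 1
        rw [tsum_eq_sum (s := Finset.range K)]
        · refine Finset.sum_congr rfl fun k hk => ?_
          rw [if_pos (Finset.mem_range.1 hk), one_mul]
        · intro k hk
          rw [if_neg (fun h => hk (Finset.mem_range.2 h)), zero_mul]
  · intro s hs
    have htail : ∀ n, ∀ᶠ K : ℕ in atTop, (1 / 2 ^ K : ℝ) * (∑' k, c n k) + ∑' k, c n (k + K) < s := by
      intro n
      have t1 : Tendsto (fun K : ℕ => ∑' k, c n (k + K)) atTop (𝓝 0) := tendsto_sum_nat_add (c n)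
      have t2 : Tendsto (fun K : ℕ => (1 / 2 ^ K : ℝ)) atTop (𝓝 0) := by
        have := tendsto_pow_atTop_nhds_zero_of_lt_one (r := (1 / 2 : ℝ)) (by norm_num) (by norm_num)
        simpa [one_div, inv_pow] using this
      have t3 := (t2.mul_const (∑' k, c n k)).add t1
      rw [zero_mul, zero_add] at t3
      exact t3.eventually (gt_mem_nhds hs)
    obtain ⟨K0, hK0⟩ := Filter.eventually_atTop.1 ((htail 0).and ((htail 1).and (htail 2)))
    refine ⟨K0, fun K ζ v m hK hζ hm hmK hv n hn => ?_⟩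
    have hm1 : m ≤ 1 := by
      refine hmK.trans ?_
      rw [div_le_one (by positivity)]
      exact one_le_pow₀ (by norm_num)
    let a : ℕ → ℝ := fun k => if k < K then -m else 1
    let θ : ℕ → ℕ × ℕ → ℝ := fun k q => if k < K then (if q.1 = k ∧ q.2 < J k then (v q - ζ q) / m else 0) else ζ q
    have ha : ∀ k, |a k| ≤ 1 := by
      intro k
      show |if k < K then -m else 1| ≤ 1
      split_ifs
      · rw [abs_neg, abs_of_pos hm]
        exact hm1
      · simp
    have hθ : ∀ k q, |θ k q| ≤ 1 := by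
      intro k q
      show |if k < K then (if q.1 = k ∧ q.2 < J k then (v q - ζ q) / m else 0) else ζ q| ≤ 1
      split_ifs with h1 h2
      · rw [abs_div, abs_of_pos hm, div_le_one hm]
        refine hv q (by omega) (by omega) ?_
        rw [h2.1]
        exact h2.2
      · simp
      · exact hζ q
    obtain ⟨w1, w2, w3, w4, w5⟩ := hW a ha θ hθ
    have e : (fun z => (f0 z + rN χ ζ z) - bN χ f0 K v z) = fun z => ∑' k, a k * lN χ (θ k) k z := by
      ext z
      obtain ⟨u1, -⟩ := hW (fun _ => 1) (fun _ => by simp) (fun _ => ζ) (fun _ => hζ)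
      have u2 : Summable fun k => lN χ ζ k z := by
        have := u1 z
        simpa only [one_mul] using this
      have u3 : ∑ k ∈ Finset.range K, lN χ v k z = ∑' k, if k < K then lN χ v k z else 0 := by
        rw [tsum_eq_sum (s := Finset.range K)]
        · exact Finset.sum_congr rfl fun k hk => by rw [if_pos (Finset.mem_range.1 hk)]
        · intro k hk
          rw [if_neg (fun h => hk (Finset.mem_range.2 h))]
      have u4 : Summable fun k => if k < K then lN χ v k z else 0 := by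
        apply summable_of_ne_finset_zero (s := Finset.range K)
        intro k hk
        rw [if_neg (fun h => hk (Finset.mem_range.2 h))]
      unfold bN rN
      rw [u3]
      have u5 : f0 z + ∑' k, lN χ ζ k z - (f0 z + ∑' k, if k < K then lN χ v k z else 0) =
          ∑' k, lN χ ζ k z - ∑' k, if k < K then lN χ v k z else 0 := by ring
      rw [u5, ← u2.tsum_sub u4]
      refine tsum_congr fun k => ?_
      by_cases hk : k < K
      · have e1 : a k = -m := if_pos hk
        rw [if_pos hk, e1]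
        show aN k * ∑ j : Fin (J k), ζ (k, (j : ℕ)) * χ k j z - aN k * ∑ j : Fin (J k), v (k, (j : ℕ)) * χ k j z =
          -m * (aN k * ∑ j : Fin (J k), θ k (k, (j : ℕ)) * χ k j z)
        have e2 : ∑ j : Fin (J k), θ k (k, (j : ℕ)) * χ k j z =
            (∑ j : Fin (J k), v (k, (j : ℕ)) * χ k j z - ∑ j : Fin (J k), ζ (k, (j : ℕ)) * χ k j z) / m := by
          rw [← Finset.sum_sub_distrib, Finset.sum_div]
          refine Finset.sum_congr rfl fun j _ => ?_
          have e3 : θ k (k, (j : ℕ)) = (v (k, (j : ℕ)) - ζ (k, (j : ℕ))) / m := by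
            show (if k < K then (if k = k ∧ (j : ℕ) < J k then (v (k, (j : ℕ)) - ζ (k, (j : ℕ))) / m else 0)
              else ζ (k, (j : ℕ))) = _
            rw [if_pos hk, if_pos ⟨rfl, j.2⟩]
          rw [e3]
          ring
        rw [e2]
        field_simp
        ring
      · have e1 : a k = 1 := if_neg hk
        have e2 : θ k = ζ := by
          funext q
          exact if_neg hk
        rw [if_neg hk, e1, e2, one_mul, sub_zero]
    rw [e]
    refine SEV_mono (w5 n) ?_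
    have e1 : ∑' k, |a k| * c n k = ∑ k ∈ Finset.range K, |a k| * c n k + ∑' k, |a (k + K)| * c n (k + K) :=
      ((w4 n).sum_add_tsum_nat_add K).symm
    have e2 : ∑ k ∈ Finset.range K, |a k| * c n k ≤ m * ∑' k, c n k := by
      have e3 : ∑ k ∈ Finset.range K, |a k| * c n k = m * ∑ k ∈ Finset.range K, c n k := by
        rw [Finset.mul_sum]
        refine Finset.sum_congr rfl fun k hk => ?_
        have e4 : a k = -m := if_pos (Finset.mem_range.1 hk)
        rw [e4, abs_neg, abs_of_pos hm]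
      rw [e3]
      exact mul_le_mul_of_nonneg_left ((hc n).sum_le_tsum _ fun k _ => hc0 n k) hm.le
    have e3 : ∑' k, |a (k + K)| * c n (k + K) = ∑' k, c n (k + K) := by
      refine tsum_congr fun k => ?_
      have e4 : a (k + K) = 1 := if_neg (by omega)
      rw [e4, abs_one, one_mul]
    have e5 : m * ∑' k, c n k ≤ (1 / 2 ^ K) * ∑' k, c n k :=
      mul_le_mul_of_nonneg_right hmK (tsum_nonneg fun k => hc0 n k)
    have e6 : (1 / 2 ^ K : ℝ) * (∑' k, c n k) + ∑' k, c n (k + K) < s := by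
      have h := hK0 K hK
      interval_cases n
      · exact h.1
      · exact h.2.1
      · exact h.2.2
    rw [e1, e3]
    linarith

end

end Pool.Agent.VN

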