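import Pool.Agent.helper99.VN.SpecU
import Pool.Agent.helper62.RS.GLC

/-!
# Row vn:TRSN (MP_07c750_an): transitions
-/

set_option autoImplicit false

open scoped MatrixGroups ContDiff Topology UpperHalfPlane ComplexConjugate ENNReal
open UpperHalfPlane MeasureTheory Filter Set

namespace Pool.Agent.VN

open Pool.Agent.RS Pool.Agent.VQ
open Pool.Agent.RPQ (Net Cl)

theorem TRSN_proof (hCNVN : CNVN_stmt) (hFLBN : FLBN_stmt) (hBOXN : BOXN_stmt) : TRSN_stmt := by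
  intro Γ k B hΓ hk
  obtain ⟨C, hC1, hC⟩ := hCNVN Γ k B hΓ hk
  obtain ⟨-, hBm, -, -, -, -, -, hBd⟩ := hBOXN
  have hk0 : kM 0 = 1 := by
    obtain ⟨_, _, _, _, _, _, _, _, _, _, haa, _, _, hkk, _⟩ := GLC
    have h := hkk 0 0
    rw [add_zero] at h
    exact (mul_eq_left.1 h.symm)
  have hC0 : 0 < C := by linarith
  refine ⟨8 * C, by linarith, ?_⟩
  intro C2 hC2
  obtain ⟨C3, ρC, hC3, hρC0, hρC8, -, hCN⟩ := hC C2 hC2
  have hC30 : 0 < C3 := by linarith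
  refine ⟨min ρC ((1 / (8 * C3)) ^ 2), lt_min hρC0 (by positivity), (min_le_left _ _).trans hρC8, ?_⟩
  intro D ρ1 t r e1 Λ N w w' hD hN hr hrρ hρ1 ht he1 he1C hΛ hΛt hexp hw hw' i v a hv hvΛ hivN hSt
  have hρ0 : 0 < ρ1 := hr.trans_le hrρ
  have hρC' : ρ1 ≤ ρC := hρ1.trans (min_le_left _ _)
  have hρ8 : ρ1 ≤ 1 / 8 := hρC'.trans hρC8
  have hsm : C3 * ρ1 ^ (1 / 2 : ℝ) ≤ 1 / 8 := by
    rw [← Real.sqrt_eq_rpow]
    have h1 : √ρ1 ≤ 1 / (8 * C3) := by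
      rw [Real.sqrt_le_left (by positivity)]
      exact hρ1.trans (min_le_right _ _)
    calc C3 * √ρ1 ≤ C3 * (1 / (8 * C3)) := mul_le_mul_of_nonneg_left h1 hC30.le
      _ = 1 / 8 := by field_simp
  have hCe : C * e1 ≤ 1 / 8 := by
    rw [le_div_iff₀ (by positivity)] at he1C
    linarith
  have he11 : e1 ≤ 1 := by nlinarith
  have hsmall : ∀ x : ℝ, x ≤ 1 / 8 → Real.exp x ≤ ρ1 ^ (-(1 / 2) : ℝ) := by
    intro x hx
    rw [Real.rpow_def_of_pos hρ0]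
    refine Real.exp_le_exp.2 ?_
    have := Real.log_le_sub_one_of_pos hρ0
    linarith
  obtain ⟨hc1, hc2, hc3⟩ := hCN D ρ1 hD hρ0 hρC'
  obtain ⟨-, hinv, -⟩ := hFLBN Γ k B D hΓ hD 0 (by rw [abs_zero]; exact hk.le)
  have hd1 : ∀ g h : SL(2, ℝ), h⁻¹ * g ∈ Bo (C3 * ρ1 ^ (1 / 2 : ℝ)) → dist (g • I : ℍ) (h • I) ≤ 1 :=
    fun g h hgh => hBd g h (hBm _ _ _ hsm hgh)
  obtain ⟨s, hs0, hsN, hn, hm, hnr⟩ := hSt
  have hn0 : (0 : ℝ) ≤ a.2.1 := Nat.cast_nonneg _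
  have hn1 : (a.2.1 : ℝ) * e1 ≤ s := by
    rw [hn, ← le_div_iff₀ he1]
    exact Nat.floor_le (by positivity)
  have hn2 : s - (a.2.1 : ℝ) * e1 < e1 := by
    have h1 : s / e1 < (a.2.1 : ℝ) + 1 := by
      rw [hn]
      exact Nat.lt_floor_add_one _
    rw [div_lt_iff₀ he1] at h1
    linarith
  have hv1 : Real.exp (C * v) ≤ ρ1 ^ (-(1 / 2) : ℝ) := by
    refine (Real.exp_le_exp.2 ?_).trans hexp
    nlinarith
  have hva : Real.exp (C * |v|) ≤ ρ1 ^ (-(1 / 2) : ℝ) := by rw [abs_of_nonneg hv]; exact hv1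
  have h0a : Real.exp (C * |(0 : ℝ)|) ≤ ρ1 ^ (-(1 / 2) : ℝ) := hsmall _ (by rw [abs_zero]; norm_num)
  -- step 1
  have d1 := hd1 _ _ (hc3 t r N w' ht hr hrρ hw' (i * Λ) v 0 0 (by positivity) hv (hvΛ.trans hΛt) hivN hv1 h0a (Or.inr (Or.inl rfl)))
  rw [Nat.cast_zero, zero_mul, hk0, mul_one, mul_one, hD.fl0, hD.fl0] at d1
  -- step 2
  have d2 := hd1 _ _ (hc1 (frZ D t w' (i * Λ)) ((a.1 : SL(2, ℝ)) * frZ D t w s) v a.2.2 hva hnr)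
  -- step 3
  have hu : Real.exp (C * (s - (a.2.1 : ℝ) * e1)) ≤ ρ1 ^ (-(1 / 2) : ℝ) := by
    refine hsmall _ ?_
    have := mul_le_mul_of_nonneg_left hn2.le hC0.le
    linarith
  have d3 := hd1 _ _ (hc3 t r N w ht hr hrρ hw ((a.2.1 : ℝ) * e1) (s - (a.2.1 : ℝ) * e1) v a.2.2 (by positivity) (by linarith) (by linarith)
    (by linarith) hu hva (Or.inr (Or.inr (by linarith))))
  rw [add_sub_cancel] at d3
  -- step 4
  have d4 := hBd _ _ (hBm _ _ _ hCe (hc2 (frZ D t w ((a.2.1 : ℝ) * e1)) v (s - (a.2.1 : ℝ) * e1) e1 a.2.2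
    (by rw [abs_of_nonneg (by linarith)]; exact hn2.le) he1 he11))
  have d34 : dist (D.fl 0 v ((a.1 : SL(2, ℝ)) * frZ D t w s * kM (a.2.2 * (Real.pi / 2))) • I : ℍ)
      (D.fl 0 v ((a.1 : SL(2, ℝ)) * frZ D t w (a.2.1 * e1) * kM (a.2.2 * (Real.pi / 2))) • I) ≤ 2 := by
    rw [mul_assoc, hinv, mul_assoc, hinv, mul_smul, mul_smul, dist_smul, dist_comm]
    exact (dist_triangle _ _ _).trans (by linarith)
  calc dist (frZ D t w' (i * Λ + v) • I : ℍ) (D.fl 0 v ((a.1 : SL(2, ℝ)) * frZ D t w (a.2.1 * e1) * kM (a.2.2 * (Real.pi / 2))) • I)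
      ≤ dist (frZ D t w' (i * Λ + v) • I : ℍ) (D.fl 0 v (frZ D t w' (i * Λ)) • I) +
        dist (D.fl 0 v (frZ D t w' (i * Λ)) • I : ℍ) (D.fl 0 v ((a.1 : SL(2, ℝ)) * frZ D t w s * kM (a.2.2 * (Real.pi / 2))) • I) +
        dist (D.fl 0 v ((a.1 : SL(2, ℝ)) * frZ D t w s * kM (a.2.2 * (Real.pi / 2))) • I : ℍ)
          (D.fl 0 v ((a.1 : SL(2, ℝ)) * frZ D t w (a.2.1 * e1) * kM (a.2.2 * (Real.pi / 2))) • I) :=
        dist_triangle4 _ _ _ _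
    _ ≤ 4 := by
        rw [dist_comm] at d1 d2
        linarith

end Pool.Agent.VN

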